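import Pool.Agent.helper62.VD.SpecE2

/-!
# MP_07c750, project VD, row vde:SMG: the marginal of the Liouville measure
-/

set_option autoImplicit false

open MeasureTheory Filter Set Topology
open scoped ENNReal ContDiff InnerProductSpace

namespace Pool.Agent.VDE

open VD

/-- the square root of a positive definite operator -/
theorem SMG_root {d : ℕ} (A : V d →L[ℝ] V d) (hs : ∀ u v, ⟪A u, v⟫_ℝ = ⟪u, A v⟫_ℝ)
    (hp : ∀ u, u ≠ 0 → 0 < ⟪A u, u⟫_ℝ) :
    ∃ S : V d →ₗ[ℝ] V d, (∀ u v, ⟪S u, v⟫_ℝ = ⟪u, S v⟫_ℝ) ∧ (∀ u, S (S u) = A u) ∧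
      LinearMap.det S = Real.sqrt A.det ∧ 0 < A.det := by
  have hT : (A : V d →ₗ[ℝ] V d).IsSymmetric := fun u v => hs u v
  have hn : Module.finrank ℝ (V d) = d := finrank_euclideanSpace_fin
  have hrA := hT.eigenvectorBasis_apply_self_apply hn
  have hdA := hT.det_eq_prod_eigenvalues hn
  have hbA := hT.apply_eigenvectorBasis hn
  generalize hT.eigenvectorBasis hn = b at *
  generalize hT.eigenvalues hn = lam at *
  have hl : ∀ i, 0 < lam i := by
    intro i
    have hne : b i ≠ 0 := b.orthonormal.ne_zero i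
    have h1 := hp (b i) hne
    have h2 : A (b i) = lam i • b i := hbA i
    rw [h2, inner_smul_left, real_inner_self_eq_norm_sq, b.orthonormal.1 i] at h1
    simpa using h1
  have hin : ∀ x y : V d, ⟪x, y⟫_ℝ = ∑ i, b.repr x i * b.repr y i := by
    intro x y
    rw [← b.repr.inner_map_map x y, PiLp.inner_apply]
    refine Finset.sum_congr rfl fun i _ => ?_
    rw [real_inner_eq_re_inner]
    simp [mul_comm]
  let S : V d →ₗ[ℝ] V d := Matrix.toLin b.toBasis b.toBasis (Matrix.diagonal fun i => Real.sqrt (lam i))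
  have hrS : ∀ u i, b.repr (S u) i = Real.sqrt (lam i) * b.repr u i := by
    intro u i
    have h1 := Matrix.repr_toLin b.toBasis b.toBasis (Matrix.diagonal fun i => Real.sqrt (lam i)) u
    have h2 := congrFun h1 i
    rw [Matrix.mulVec_diagonal] at h2
    rw [← OrthonormalBasis.coe_toBasis_repr_apply, ← OrthonormalBasis.coe_toBasis_repr_apply]
    exact h2
  refine ⟨S, ?_, ?_, ?_, ?_⟩
  · intro u v
    rw [hin, hin]
    refine Finset.sum_congr rfl fun i _ => ?_
    rw [hrS, hrS]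
    ring
  · intro u
    apply b.repr.injective
    ext i
    rw [hrS, hrS, ← mul_assoc, Real.mul_self_sqrt (hl i).le]
    exact (hrA u i).symm
  · have h1 : LinearMap.det S = ∏ i, Real.sqrt (lam i) := by
      show LinearMap.det (Matrix.toLin b.toBasis b.toBasis (Matrix.diagonal fun i => Real.sqrt (lam i))) = _
      rw [LinearMap.det_toLin, Matrix.det_diagonal]
    rw [h1]
    have h2 : A.det = ∏ i, lam i := hdA
    rw [h2, Real.sqrt_prod _ fun i _ => (hl i).le]
  · have h2 : A.det = ∏ i, lam i := hdA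
    rw [h2]
    exact Finset.prod_pos fun i _ => hl i

theorem SMG_inj {d : ℕ} {A : V d →L[ℝ] V d} (hp : ∀ u, u ≠ 0 → 0 < ⟪A u, u⟫_ℝ) : A.IsInvertible := by
  have h : Function.Injective (A : V d →ₗ[ℝ] V d) := by
    rw [← LinearMap.ker_eq_bot, LinearMap.ker_eq_bot']
    intro u hu
    by_contra hne
    have h1 := hp u hne
    have h2 : A u = 0 := hu
    rw [h2, inner_zero_left] at h1
    exact lt_irrefl _ h1
  exact ⟨(LinearEquiv.ofInjectiveEndo (A : V d →ₗ[ℝ] V d) h).toContinuousLinearEquiv, by ext1 u; rfl⟩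

theorem SMG_ball {d : ℕ} (hd : 1 ≤ d) : volume {w : V d | 0 < ‖w‖ ∧ ‖w‖ ≤ 1} = volume (Metric.ball (0 : V d) 1) := by
  have : Nonempty (Fin d) := ⟨⟨0, hd⟩⟩
  have : Nontrivial (V d) := by
    rw [← Module.finrank_pos_iff (R := ℝ), finrank_euclideanSpace_fin]
    exact hd
  have h1 : {w : V d | 0 < ‖w‖ ∧ ‖w‖ ≤ 1} = Metric.closedBall 0 1 \ {0} := by
    ext w
    simp only [mem_setOf_eq, mem_diff, mem_closedBall_zero_iff, mem_singleton_iff, norm_pos_iff]
    tauto
  rw [h1, measure_diff_null (measure_singleton _), Measure.addHaar_closedBall_eq_addHaar_ball]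

theorem SMG_vol {d : ℕ} {G : V d → V d →L[ℝ] V d} (hG : IsMetric G) (hd : 1 ≤ d) (x : V d) :
    volume {ξ : V d | 0 < nrm G (x, ξ) ∧ nrm G (x, ξ) ≤ 1} =
      ENNReal.ofReal (dens G x) * volume (Metric.ball (0 : V d) 1) := by
  obtain ⟨S, hS, hSS, hdet, hpos⟩ := SMG_root (G x) (hG.symm x) (hG.pos x)
  have hinv := SMG_inj (hG.pos x)
  have hker : LinearMap.ker S = ⊥ := by
    rw [LinearMap.ker_eq_bot']
    intro u hu
    by_contra hne
    have h1 := hG.pos x u hne
    rw [← hSS u, hu, map_zero, inner_zero_left] at h1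
    exact lt_irrefl _ h1
  have hsurj : Function.Surjective S := LinearMap.injective_iff_surjective.1 (LinearMap.ker_eq_bot.1 hker)
  have hn : ∀ w : V d, nrm G (x, S w) = ‖w‖ := by
    intro w
    obtain ⟨z, rfl⟩ := hsurj w
    have h1 : IG G x (S (S z)) = z := by
      show (G x).inverse (S (S z)) = z
      rw [hinv.inverse_apply_eq, hSS]
    show Real.sqrt ⟪IG G x (S (S z)), S (S z)⟫_ℝ = _
    rw [h1, ← hS, real_inner_self_eq_norm_sq, Real.sqrt_sq (norm_nonneg _)]
  have hset : {ξ : V d | 0 < nrm G (x, ξ) ∧ nrm G (x, ξ) ≤ 1} = S '' {w : V d | 0 < ‖w‖ ∧ ‖w‖ ≤ 1} := by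
    ext ξ
    constructor
    · rintro ⟨h1, h2⟩
      obtain ⟨w, rfl⟩ := hsurj ξ
      rw [hn] at h1 h2
      exact ⟨w, ⟨h1, h2⟩, rfl⟩
    · rintro ⟨w, ⟨h1, h2⟩, rfl⟩
      rw [mem_setOf_eq, hn]
      exact ⟨h1, h2⟩
  rw [hset, Measure.addHaar_image_linearMap, SMG_ball hd, hdet, abs_of_nonneg (Real.sqrt_nonneg _)]
  rfl

theorem SMG_proof (h1 : SNM_stmt) : SMG_stmt := by
  intro d G hG hd
  obtain ⟨hc, h0, hsc, hdir, hcomp⟩ := h1 d G hG
  have hcont : Continuous (dens G) :=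
    Real.continuous_sqrt.comp (ContinuousLinearMap.continuous_det.comp hG.smooth.continuous)
  have hpos : ∀ x, 0 < dens G x := fun x => Real.sqrt_pos.2 (SMG_root (G x) (hG.symm x) (hG.pos x)).choose_spec.2.2.2
  refine ⟨hpos, hcont, SMG_vol hG hd, ?_⟩
  intro F0 L h hF0 hL hFL hh
  have hmd : Measurable (dir G : P d → P d) := by
    refine Measurable.prodMk measurable_fst ?_
    exact (hc.measurable.inv).smul measurable_snd
  have hfs : MeasurableSet {p : P d | p.1 ∈ F0} := measurable_fst hF0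
  have hE : MeasurableSet {p : P d | 0 < nrm G p ∧ nrm G p ≤ 1} :=
    (measurableSet_lt measurable_const hc.measurable).inter (measurableSet_le hc.measurable measurable_const)
  have hhf : Continuous fun p : P d => h p.1 := hh.comp continuous_fst
  rw [liou, setIntegral_map hfs hhf.aestronglyMeasurable hmd.aemeasurable, Measure.restrict_restrict (hmd hfs)]
  have hset : dir G ⁻¹' {p : P d | p.1 ∈ F0} ∩ {p : P d | 0 < nrm G p ∧ nrm G p ≤ 1} =
      {p : P d | p.1 ∈ F0 ∧ 0 < nrm G p ∧ nrm G p ≤ 1} := rfl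
  have hD : MeasurableSet {p : P d | p.1 ∈ F0 ∧ 0 < nrm G p ∧ nrm G p ≤ 1} := hfs.inter hE
  rw [hset]
  show ∫ p in {p : P d | p.1 ∈ F0 ∧ 0 < nrm G p ∧ nrm G p ≤ 1}, h p.1 = _
  rw [← integral_indicator hD]
  have hint : Integrable ({p : P d | p.1 ∈ F0 ∧ 0 < nrm G p ∧ nrm G p ≤ 1}.indicator fun p : P d => h p.1)
      ((volume : Measure (V d)).prod volume) := by
    rw [integrable_indicator_iff hD]
    have hK := hcomp L hL 1
    have h3 : IntegrableOn (fun p : P d => h p.1) {p : P d | p.1 ∈ L ∧ nrm G p ≤ 1} (volume : Measure (P d)) :=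
      hhf.continuousOn.integrableOn_compact hK
    exact h3.mono_set fun p hp => ⟨hFL hp.1, hp.2.2⟩
  have hvol : (volume : Measure (P d)) = (volume : Measure (V d)).prod volume := rfl
  rw [hvol, integral_prod _ hint, ← integral_const_mul, ← integral_indicator hF0]
  refine integral_congr_ae (Eventually.of_forall fun x => ?_)
  show ∫ ξ : V d, {p : P d | p.1 ∈ F0 ∧ 0 < nrm G p ∧ nrm G p ≤ 1}.indicator (fun p : P d => h p.1) (x, ξ) = _
  by_cases hx : x ∈ F0
  · rw [indicator_of_mem hx]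
    have e1 : (fun ξ : V d => {p : P d | p.1 ∈ F0 ∧ 0 < nrm G p ∧ nrm G p ≤ 1}.indicator (fun p : P d => h p.1) (x, ξ)) =
        {ξ : V d | 0 < nrm G (x, ξ) ∧ nrm G (x, ξ) ≤ 1}.indicator fun _ => h x := by
      funext ξ
      by_cases hξ : 0 < nrm G (x, ξ) ∧ nrm G (x, ξ) ≤ 1
      · rw [indicator_of_mem (show (x, ξ) ∈ {p : P d | p.1 ∈ F0 ∧ 0 < nrm G p ∧ nrm G p ≤ 1} from ⟨hx, hξ⟩),
          indicator_of_mem (show ξ ∈ {ξ : V d | 0 < nrm G (x, ξ) ∧ nrm G (x, ξ) ≤ 1} from hξ)]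
      · rw [indicator_of_notMem (show (x, ξ) ∉ {p : P d | p.1 ∈ F0 ∧ 0 < nrm G p ∧ nrm G p ≤ 1} from fun hc => hξ hc.2),
          indicator_of_notMem (show ξ ∉ {ξ : V d | 0 < nrm G (x, ξ) ∧ nrm G (x, ξ) ≤ 1} from hξ)]
    have hms : MeasurableSet {ξ : V d | 0 < nrm G (x, ξ) ∧ nrm G (x, ξ) ≤ 1} := measurable_prodMk_left hE
    rw [e1, integral_indicator hms, setIntegral_const, Measure.real, SMG_vol hG hd x, ENNReal.toReal_mul,
      ENNReal.toReal_ofReal (hpos x).le, smul_eq_mul]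
    ring
  · rw [indicator_of_notMem hx]
    have e1 : (fun ξ : V d => {p : P d | p.1 ∈ F0 ∧ 0 < nrm G p ∧ nrm G p ≤ 1}.indicator (fun p : P d => h p.1) (x, ξ)) = fun _ => 0 := by
      funext ξ
      rw [indicator_of_notMem (show (x, ξ) ∉ {p : P d | p.1 ∈ F0 ∧ 0 < nrm G p ∧ nrm G p ≤ 1} from fun hc => hx hc.1)]
    rw [e1, integral_zero]

end Pool.Agent.VDE
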